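import Pool.Agent.WR4.Stmts

/-!
WR4: final theorem, part 1: the value distribution.
-/

namespace Pool.Agent.WR4.H33

open Pool.Agent.WIR Pool.Agent.WR2 Pool.Agent.WR3 Pool.Agent.WR4
open scoped BigOperators ENNReal Topology
open Filter MeasureTheory

open Classical in
/-- number of the `a ≤ X` with the property `Q` and `w a ≤ r`. -/
noncomputable def NW (Q : ℕ → Prop) (w : ℕ → ℝ) (r : ℝ) (X : ℕ) : ℝ :=
  (((Finset.Icc 1 X).filter (fun a => Q a ∧ w a ≤ r)).card : ℝ)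

/-- counting in the set `Q` -/
def Cnt (Q : ℕ → Prop) (P : ℕ → ℝ → ℝ) : Prop :=
  ∃ k : ℕ, ∀ m : ℕ, k ≤ m → ∀ (r : ℝ) (X : ℕ), |NW Q (wr m) r X - X * P m r| ≤ 3 ^ m

/-- distribution functions on the set `V` -/
def Dst (V : Set ℤ_[3]) (P : ℕ → ℝ → ℝ) (wl : ℤ_[3] → ℝ) : Prop :=
  ∀ s ε : ℝ, 0 < ε → ∃ m0 : ℕ, ∀ m : ℕ, m0 ≤ m →
      P m s ≤ (μ3 {x | x ∈ V ∧ wl x ≤ s}).toReal + ε ∧
      (μ3 {x | x ∈ V ∧ wl x < s}).toReal - ε ≤ P m s

open Classical in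
/-- closeness in measure -/
def Cl (w : ℕ → ℝ) : Prop := ∀ ε : ℝ, 0 < ε → ∃ m0 : ℕ, ∀ m : ℕ, m0 ≤ m →
    ∃ X0 : ℕ, ∀ X : ℕ, X0 ≤ X →
      (((Finset.Icc 1 X).filter (fun a => ε < |w a - 2 / 3 * wr m a|)).card : ℝ) ≤ ε * X

open Classical in
theorem cl_of_eqd (EQD : EqdStmt) (σ : ℝ) (hσ : Sg σ) (ρ : ℕ → ℝ) (hρ : Rh ρ) (w : ℕ → ℝ)
    (hw : ∀ a, 0 < a → w a = ρ a / (3 * σ)) : Cl w := by
  intro ε hε
  have hσ0 : 0 < σ := hσ.1
  have h0 : 0 < min ε (3 * σ * ε) := lt_min hε (by positivity)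
  obtain ⟨m0, hm0⟩ := EQD σ hσ ρ hρ (min ε (3 * σ * ε)) h0
  refine ⟨m0, fun m hm => ?_⟩
  obtain ⟨X0, hX0⟩ := hm0 m hm
  refine ⟨X0, fun X hX => ?_⟩
  refine le_trans ?_ ((hX0 X hX).trans (mul_le_mul_of_nonneg_right (min_le_left _ _)
    (Nat.cast_nonneg X)))
  refine Nat.cast_le.2 (Finset.card_le_card ?_)
  intro a ha
  rw [Finset.mem_filter] at ha ⊢
  refine ⟨ha.1, ?_⟩
  have ha0 : 0 < a := (Finset.mem_Icc.1 ha.1).1
  have h1 := ha.2
  rw [hw a ha0] at h1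
  have h2 : ρ a / (3 * σ) - 2 / 3 * wr m a = (ρ a - 2 * σ * wr m a) / (3 * σ) := by
    field_simp
  rw [h2, abs_div, abs_of_pos (show (0 : ℝ) < 3 * σ by positivity), lt_div_iff₀ (by positivity)] at h1
  calc min ε (3 * σ * ε) ≤ 3 * σ * ε := min_le_right _ _
    _ = ε * (3 * σ) := by ring
    _ < _ := h1

open Classical in
/-- upper bound for the number of small values -/
theorem nw_upper (Q : ℕ → Prop) (V : Set ℤ_[3]) (P : ℕ → ℝ → ℝ) (w : ℕ → ℝ) (hw : Cl w)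
    (wl : ℤ_[3] → ℝ) (CNU : Cnt Q P) (DIS : Dst V P wl)
    (r ε : ℝ) (hε : 0 < ε) :
    ∃ X0 : ℕ, ∀ X : ℕ, X0 ≤ X →
      NW Q w r X ≤ X * ((μ3 {x | x ∈ V ∧ wl x ≤ 3 / 2 * (r + ε)}).toReal + ε) ∧
      X * ((μ3 {x | x ∈ V ∧ wl x < 3 / 2 * (r - ε)}).toReal - ε) ≤ NW Q w r X := by
  obtain ⟨k, CNU⟩ := CNU
  obtain ⟨m1, h1⟩ := hw (ε / 4) (by positivity)
  obtain ⟨m2, h2⟩ := DIS (3 / 2 * (r + ε)) (ε / 4) (by positivity)
  obtain ⟨m3, h3⟩ := DIS (3 / 2 * (r - ε)) (ε / 4) (by positivity)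
  set m := max (max m1 m2) (max m3 k) with hmdef
  have hm1 : m1 ≤ m := (le_max_left _ _).trans (le_max_left _ _)
  have hm2 : m2 ≤ m := (le_max_right _ _).trans (le_max_left _ _)
  have hm3 : m3 ≤ m := (le_max_left _ _).trans (le_max_right _ _)
  have hm4 : k ≤ m := (le_max_right _ _).trans (le_max_right _ _)
  obtain ⟨X1, hX1⟩ := h1 m hm1
  have h2' := (h2 m hm2).1
  have h3' := (h3 m hm3).2
  obtain ⟨X2, hX2⟩ := exists_nat_ge ((3 : ℝ) ^ m / (ε / 4))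
  refine ⟨max X1 X2, fun X hX => ?_⟩
  have hXa := hX1 X ((le_max_left _ _).trans hX)
  have hXb : (3 : ℝ) ^ m ≤ ε / 4 * X := by
    have h4 : (3 : ℝ) ^ m / (ε / 4) ≤ X :=
      hX2.trans (by exact_mod_cast (le_max_right X1 X2).trans hX)
    rw [div_le_iff₀ (by positivity)] at h4
    linarith
  have hX0 : (0 : ℝ) ≤ X := Nat.cast_nonneg X
  set E := (Finset.Icc 1 X).filter (fun a => ε / 4 < |w a - 2 / 3 * wr m a|) with hE
  constructor
  · set A := (Finset.Icc 1 X).filter (fun a => Q a ∧ wr m a ≤ 3 / 2 * (r + ε)) with hA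
    have hsub : (Finset.Icc 1 X).filter (fun a => Q a ∧ w a ≤ r) ⊆ A ∪ E := by
      intro a ha
      rw [Finset.mem_filter] at ha
      rw [Finset.mem_union]
      by_cases hc : ε / 4 < |w a - 2 / 3 * wr m a|
      · right
        rw [hE, Finset.mem_filter]
        exact ⟨ha.1, hc⟩
      · left
        rw [hA, Finset.mem_filter]
        refine ⟨ha.1, ha.2.1, ?_⟩
        have h5 := (abs_le.1 (not_lt.1 hc)).1
        have h6 := ha.2.2
        linarith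
    have h7 : NW Q w r X ≤ (A.card : ℝ) + E.card := by
      unfold NW
      exact_mod_cast (Finset.card_le_card hsub).trans (Finset.card_union_le _ _)
    have h8 := (abs_le.1 (CNU m hm4 (3 / 2 * (r + ε)) X)).2
    have h8' : NW Q (wr m) (3 / 2 * (r + ε)) X = (A.card : ℝ) := rfl
    have h9 : (X : ℝ) * P m (3 / 2 * (r + ε))
        ≤ X * ((μ3 {x | x ∈ V ∧ wl x ≤ 3 / 2 * (r + ε)}).toReal + ε / 4) :=
      mul_le_mul_of_nonneg_left h2' hX0
    nlinarith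
  · set A := (Finset.Icc 1 X).filter (fun a => Q a ∧ wr m a ≤ 3 / 2 * (r - ε)) with hA
    have hsub : A ⊆ (Finset.Icc 1 X).filter (fun a => Q a ∧ w a ≤ r) ∪ E := by
      intro a ha
      rw [hA, Finset.mem_filter] at ha
      rw [Finset.mem_union]
      by_cases hc : ε / 4 < |w a - 2 / 3 * wr m a|
      · right
        rw [hE, Finset.mem_filter]
        exact ⟨ha.1, hc⟩
      · left
        rw [Finset.mem_filter]
        refine ⟨ha.1, ha.2.1, ?_⟩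
        have h5 := (abs_le.1 (not_lt.1 hc)).2
        have h6 := ha.2.2
        linarith
    have h7 : (A.card : ℝ) ≤ NW Q w r X + E.card := by
      unfold NW
      exact_mod_cast (Finset.card_le_card hsub).trans (Finset.card_union_le _ _)
    have h8 := (abs_le.1 (CNU m hm4 (3 / 2 * (r - ε)) X)).1
    have h8' : NW Q (wr m) (3 / 2 * (r - ε)) X = (A.card : ℝ) := rfl
    have h9 : X * ((μ3 {x | x ∈ V ∧ wl x < 3 / 2 * (r - ε)}).toReal - ε / 4)
        ≤ (X : ℝ) * P m (3 / 2 * (r - ε)) :=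
      mul_le_mul_of_nonneg_left h3' hX0
    nlinarith

/-- continuity of the distribution function from the right -/
theorem df_right (μ : Measure ℤ_[3]) [IsFiniteMeasure μ] (U : Set ℤ_[3]) (hU : MeasurableSet U)
    (v : ℤ_[3] → ℝ) (hv : Measurable v) (r η : ℝ) (hη : 0 < η) :
    ∃ ε : ℝ, 0 < ε ∧ ε ≤ η ∧
      (μ {x | x ∈ U ∧ v x ≤ r + ε}).toReal ≤ (μ {x | x ∈ U ∧ v x ≤ r}).toReal + η := by
  set A : ℕ → Set ℤ_[3] := fun k => {x | x ∈ U ∧ v x ≤ r + 1 / ((k : ℝ) + 1)} with hA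
  have hAm : ∀ k, MeasurableSet (A k) := fun k => hU.inter (measurableSet_le hv measurable_const)
  have hanti : Antitone A := by
    intro i j hij x hx
    refine ⟨hx.1, hx.2.trans ?_⟩
    have : (1 : ℝ) / ((j : ℝ) + 1) ≤ 1 / ((i : ℝ) + 1) := by
      have h0 : (i : ℝ) ≤ j := by exact_mod_cast hij
      have h1 : (0 : ℝ) ≤ i := Nat.cast_nonneg i
      exact one_div_le_one_div_of_le (by linarith) (by linarith)
    linarith
  have hinter : (⋂ k, A k) = {x | x ∈ U ∧ v x ≤ r} := by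
    ext x
    rw [Set.mem_iInter]
    constructor
    · intro h
      refine ⟨(h 0).1, ?_⟩
      have h1 : Tendsto (fun k : ℕ => r + 1 / ((k : ℝ) + 1)) atTop (𝓝 (r + 0)) :=
        tendsto_const_nhds.add tendsto_one_div_add_atTop_nhds_zero_nat
      rw [add_zero] at h1
      exact ge_of_tendsto' h1 fun k => (h k).2
    · intro h k
      refine ⟨h.1, h.2.trans ?_⟩
      have : (0 : ℝ) ≤ 1 / ((k : ℝ) + 1) := by positivity
      linarith
  have h1 := tendsto_measure_iInter_atTop (μ := μ) (s := A)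
    (fun k => (hAm k).nullMeasurableSet) hanti ⟨0, measure_ne_top _ _⟩
  rw [hinter] at h1
  have h2 := (ENNReal.tendsto_toReal (measure_ne_top μ _)).comp h1
  have h3 := h2.eventually (gt_mem_nhds (show (μ {x | x ∈ U ∧ v x ≤ r}).toReal
    < (μ {x | x ∈ U ∧ v x ≤ r}).toReal + η by linarith))
  have h4 := (tendsto_one_div_add_atTop_nhds_zero_nat (𝕜 := ℝ)).eventually (gt_mem_nhds hη)
  obtain ⟨k, hk1, hk2⟩ := (h3.and h4).exists
  exact ⟨1 / ((k : ℝ) + 1), by positivity, hk2.le, le_of_lt hk1⟩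

/-- continuity of the distribution function from the left -/
theorem df_left (μ : Measure ℤ_[3]) [IsFiniteMeasure μ] (U : Set ℤ_[3]) (hU : MeasurableSet U)
    (v : ℤ_[3] → ℝ) (hv : Measurable v) (r η : ℝ) (hη : 0 < η) :
    ∃ ε : ℝ, 0 < ε ∧ ε ≤ η ∧
      (μ {x | x ∈ U ∧ v x < r}).toReal - η ≤ (μ {x | x ∈ U ∧ v x < r - ε}).toReal := by
  set A : ℕ → Set ℤ_[3] := fun k => {x | x ∈ U ∧ v x < r - 1 / ((k : ℝ) + 1)} with hA
  have hmono : Monotone A := by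
    intro i j hij x hx
    refine ⟨hx.1, hx.2.trans_le ?_⟩
    have : (1 : ℝ) / ((j : ℝ) + 1) ≤ 1 / ((i : ℝ) + 1) := by
      have h0 : (i : ℝ) ≤ j := by exact_mod_cast hij
      have h1 : (0 : ℝ) ≤ i := Nat.cast_nonneg i
      exact one_div_le_one_div_of_le (by linarith) (by linarith)
    linarith
  have hunion : (⋃ k, A k) = {x | x ∈ U ∧ v x < r} := by
    ext x
    rw [Set.mem_iUnion]
    constructor
    · rintro ⟨k, h⟩
      refine ⟨h.1, h.2.trans_le ?_⟩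
      have : (0 : ℝ) ≤ 1 / ((k : ℝ) + 1) := by positivity
      linarith
    · intro h
      obtain ⟨k, hk⟩ := exists_nat_one_div_lt (show 0 < r - v x by linarith [h.2])
      exact ⟨k, h.1, by linarith⟩
  have h1 := tendsto_measure_iUnion_atTop (μ := μ) hmono
  rw [hunion] at h1
  have h2 := (ENNReal.tendsto_toReal (measure_ne_top μ _)).comp h1
  have h3 := h2.eventually (lt_mem_nhds (show (μ {x | x ∈ U ∧ v x < r}).toReal - η
    < (μ {x | x ∈ U ∧ v x < r}).toReal by linarith))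
  have h4 := (tendsto_one_div_add_atTop_nhds_zero_nat (𝕜 := ℝ)).eventually (gt_mem_nhds hη)
  obtain ⟨k, hk1, hk2⟩ := (h3.and h4).exists
  exact ⟨1 / ((k : ℝ) + 1), by positivity, hk2.le, le_of_lt hk1⟩

/-- the value distribution -/
theorem value_dist (MEA : MeaStmt) (Q : ℕ → Prop) (V : Set ℤ_[3]) (hV : MeasurableSet V)
    (P : ℕ → ℝ → ℝ) (w : ℕ → ℝ) (hw : Cl w) (wl : ℤ_[3] → ℝ)
    (hm : Measurable wl) (CNU : Cnt Q P) (DIS : Dst V P wl) (r : ℝ) (h0 : μ3 {x | x ∈ V ∧ 2 / 3 * wl x = r} = 0) :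
    Tendsto (fun X : ℕ => NW Q w r X / X) atTop (𝓝 (μ3 {x | x ∈ V ∧ 2 / 3 * wl x ≤ r}).toReal) := by
  have : IsProbabilityMeasure μ3 := MEA.1
  have hvm : Measurable (fun x => 2 / 3 * wl x) := hm.const_mul _
  have heq : (μ3 {x | x ∈ V ∧ 2 / 3 * wl x ≤ r}) = μ3 {x | x ∈ V ∧ 2 / 3 * wl x < r} := by
    refine le_antisymm ?_ (measure_mono fun x hx => ⟨hx.1, hx.2.le⟩)
    have hsub : {x | x ∈ V ∧ 2 / 3 * wl x ≤ r}
        ⊆ {x | x ∈ V ∧ 2 / 3 * wl x < r} ∪ {x | x ∈ V ∧ 2 / 3 * wl x = r} := by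
      intro x hx
      rcases lt_or_eq_of_le hx.2 with h | h
      · exact Or.inl ⟨hx.1, h⟩
      · exact Or.inr ⟨hx.1, h⟩
    refine (measure_mono hsub).trans ((measure_union_le _ _).trans ?_)
    rw [h0, add_zero]
  have hs1 : ∀ s : ℝ, {x | x ∈ V ∧ wl x ≤ 3 / 2 * s} = {x | x ∈ V ∧ 2 / 3 * wl x ≤ s} := by
    intro s
    ext x
    constructor
    · rintro ⟨h1, h2⟩
      exact ⟨h1, by linarith⟩
    · rintro ⟨h1, h2⟩
      exact ⟨h1, by linarith⟩
  have hs2 : ∀ s : ℝ, {x | x ∈ V ∧ wl x < 3 / 2 * s} = {x | x ∈ V ∧ 2 / 3 * wl x < s} := by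
    intro s
    ext x
    constructor
    · rintro ⟨h1, h2⟩
      exact ⟨h1, by linarith⟩
    · rintro ⟨h1, h2⟩
      exact ⟨h1, by linarith⟩
  rw [Metric.tendsto_atTop]
  intro η hη
  obtain ⟨ε1, h11, h12, h13⟩ := df_right μ3 V hV _ hvm r (η / 4) (by positivity)
  obtain ⟨ε2, h21, h22, h23⟩ := df_left μ3 V hV _ hvm r (η / 4) (by positivity)
  obtain ⟨X1, hX1⟩ := nw_upper Q V P w hw wl CNU DIS r ε1 h11
  obtain ⟨X2, hX2⟩ := nw_upper Q V P w hw wl CNU DIS r ε2 h21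
  refine ⟨max (max X1 X2) 1, fun X hX => ?_⟩
  have ha := (hX1 X (((le_max_left _ _).trans (le_max_left _ _)).trans hX)).1
  have hb := (hX2 X (((le_max_right _ _).trans (le_max_left _ _)).trans hX)).2
  have hXp : (0 : ℝ) < X := by exact_mod_cast (lt_of_lt_of_le one_pos ((le_max_right _ _).trans hX))
  rw [hs1] at ha
  rw [hs2] at hb
  rw [Real.dist_eq, abs_lt]
  constructor
  · have h5 : (μ3 {x | x ∈ V ∧ 2 / 3 * wl x < r - ε2}).toReal - ε2 ≤ NW Q w r X / X := by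
      rw [le_div_iff₀ hXp]
      linarith
    rw [heq]
    linarith
  · have h5 : NW Q w r X / X ≤ (μ3 {x | x ∈ V ∧ 2 / 3 * wl x ≤ r + ε1}).toReal + ε1 := by
      rw [div_le_iff₀ hXp]
      linarith
    linarith

/-- small values of density zero: a lower bound for almost all units -/
theorem ae_lower (MEA : MeaStmt) (Q : ℕ → Prop) (V : Set ℤ_[3]) (hV : MeasurableSet V)
    (P : ℕ → ℝ → ℝ) (w : ℕ → ℝ) (hw : Cl w) (wl : ℤ_[3] → ℝ)
    (CNU : Cnt Q P) (DIS : Dst V P wl)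
    (c : ℝ) (hc : ∀ r, r < c → Tendsto (fun X : ℕ => NW Q w r X / X) atTop (𝓝 0)) :
    ∀ᵐ x ∂(μ3.restrict V), c ≤ 2 / 3 * wl x := by
  have : IsProbabilityMeasure μ3 := MEA.1
  have hs2 : ∀ s : ℝ, {x | x ∈ V ∧ wl x < 3 / 2 * s} = {x | x ∈ V ∧ 2 / 3 * wl x < s} := by
    intro s
    ext x
    constructor
    · rintro ⟨h1, h2⟩
      exact ⟨h1, by linarith⟩
    · rintro ⟨h1, h2⟩
      exact ⟨h1, by linarith⟩
  have hz : ∀ k : ℕ, μ3 {x | x ∈ V ∧ 2 / 3 * wl x < c - 1 / ((k : ℝ) + 1)} = 0 := by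
    intro k
    set δ : ℝ := 1 / ((k : ℝ) + 1) with hδ
    have hδ0 : 0 < δ := by positivity
    have h1 : ∀ ε : ℝ, 0 < ε → ε ≤ δ / 2 →
        (μ3 {x | x ∈ V ∧ 2 / 3 * wl x < c - δ}).toReal ≤ ε := by
      intro ε hε hε2
      obtain ⟨X1, hX1⟩ := nw_upper Q V P w hw wl CNU DIS (c - δ / 2) ε hε
      have h3 := hc (c - δ / 2) (by linarith)
      have h4 : (μ3 {x | x ∈ V ∧ 2 / 3 * wl x < c - δ / 2 - ε}).toReal - ε ≤ 0 := by
        refine ge_of_tendsto h3 ?_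
        filter_upwards [eventually_ge_atTop (max X1 1)] with X hX
        have h2 := (hX1 X ((le_max_left _ _).trans hX)).2
        rw [hs2] at h2
        have hXp : (0 : ℝ) < X := by
          exact_mod_cast (lt_of_lt_of_le one_pos ((le_max_right X1 1).trans hX))
        rw [le_div_iff₀ hXp]
        linarith
      have h5 : (μ3 {x | x ∈ V ∧ 2 / 3 * wl x < c - δ / 2 - ε}).toReal ≤ ε := by linarith
      refine le_trans ?_ h5
      refine ENNReal.toReal_mono (measure_ne_top _ _) (measure_mono ?_)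
      rintro x ⟨hx1, hx2⟩
      exact ⟨hx1, by linarith⟩
    have h5 : (μ3 {x | x ∈ V ∧ 2 / 3 * wl x < c - δ}).toReal ≤ 0 := by
      refine le_of_forall_pos_le_add fun ε hε => ?_
      have h6 := h1 (min ε (δ / 2)) (lt_min hε (by positivity)) (min_le_right _ _)
      have h7 := min_le_left ε (δ / 2)
      linarith
    have h6 : (μ3 {x | x ∈ V ∧ 2 / 3 * wl x < c - δ}).toReal = 0 :=
      le_antisymm h5 ENNReal.toReal_nonneg
    rcases (ENNReal.toReal_eq_zero_iff _).1 h6 with h | h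
    · exact h
    · exact absurd h (measure_ne_top _ _)
  rw [ae_restrict_iff' hV, ae_iff]
  have hsub : {x | ¬ (x ∈ V → c ≤ 2 / 3 * wl x)}
      ⊆ ⋃ k : ℕ, {x | x ∈ V ∧ 2 / 3 * wl x < c - 1 / ((k : ℝ) + 1)} := by
    intro x hx
    rw [Set.mem_ofPred_eq, Classical.not_imp, not_le] at hx
    obtain ⟨k, hk⟩ := exists_nat_one_div_lt (show 0 < c - 2 / 3 * wl x by linarith [hx.2])
    rw [Set.mem_iUnion]
    exact ⟨k, hx.1, by linarith⟩
  exact measure_mono_null hsub (measure_iUnion_null hz)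

/-- a lower bound for almost all units: small values have density zero -/
theorem ae_upper (MEA : MeaStmt) (Q : ℕ → Prop) (V : Set ℤ_[3]) (hV : MeasurableSet V)
    (P : ℕ → ℝ → ℝ) (w : ℕ → ℝ) (hw : Cl w) (wl : ℤ_[3] → ℝ) (hm : Measurable wl)
    (CNU : Cnt Q P) (DIS : Dst V P wl)
    (c : ℝ) (hc : ∀ᵐ x ∂(μ3.restrict V), c ≤ 2 / 3 * wl x) (r : ℝ) (hr : r < c) :
    Tendsto (fun X : ℕ => NW Q w r X / X) atTop (𝓝 0) := by
  rw [ae_restrict_iff' hV, ae_iff] at hc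
  have h1 : μ3 {x | x ∈ V ∧ 2 / 3 * wl x ≤ r} = 0 := by
    refine measure_mono_null ?_ hc
    rintro x ⟨hx1, hx2⟩
    rw [Set.mem_ofPred_eq, Classical.not_imp, not_le]
    exact ⟨hx1, by linarith⟩
  have h2 : μ3 {x | x ∈ V ∧ 2 / 3 * wl x = r} = 0 := by
    refine measure_mono_null ?_ h1
    rintro x ⟨hx1, hx2⟩
    exact ⟨hx1, hx2.le⟩
  have h3 := value_dist MEA Q V hV P w hw wl hm CNU DIS r h2
  rw [h1] at h3
  simpa using h3

/-- small values on a set of positive measure: small values at a positive proportion of integers -/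
theorem pos_prop (MEA : MeaStmt) (Q : ℕ → Prop) (V : Set ℤ_[3]) (hV : MeasurableSet V)
    (P : ℕ → ℝ → ℝ) (w : ℕ → ℝ) (hw : Cl w) (wl : ℤ_[3] → ℝ)
    (CNU : Cnt Q P) (DIS : Dst V P wl) (c r : ℝ) (hcr : c < r)
    (hc : ¬ ∀ᵐ x ∂(μ3.restrict V), c ≤ 2 / 3 * wl x) :
    ∃ δ : ℝ, 0 < δ ∧ ∃ X0 : ℕ, ∀ X : ℕ, X0 ≤ X → δ * X ≤ NW Q w r X := by
  have : IsProbabilityMeasure μ3 := MEA.1
  have hs2 : ∀ s : ℝ, {x | x ∈ V ∧ wl x < 3 / 2 * s} = {x | x ∈ V ∧ 2 / 3 * wl x < s} := by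
    intro s
    ext x
    constructor
    · rintro ⟨h1, h2⟩
      exact ⟨h1, by linarith⟩
    · rintro ⟨h1, h2⟩
      exact ⟨h1, by linarith⟩
  set m0 : ℝ := (μ3 {x | x ∈ V ∧ 2 / 3 * wl x < c}).toReal with hm0
  have hpos : 0 < m0 := by
    rw [hm0]
    refine ENNReal.toReal_pos ?_ (measure_ne_top _ _)
    intro h0
    apply hc
    rw [ae_restrict_iff' hV, ae_iff]
    refine measure_mono_null ?_ h0
    intro x hx
    rw [Set.mem_ofPred_eq, Classical.not_imp, not_le] at hx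
    exact hx
  have hε : 0 < min (r - c) (m0 / 2) := lt_min (by linarith) (by positivity)
  obtain ⟨X0, hX0⟩ := nw_upper Q V P w hw wl CNU DIS r (min (r - c) (m0 / 2)) hε
  refine ⟨m0 / 2, by positivity, X0, fun X hX => ?_⟩
  have h1 := (hX0 X hX).2
  rw [hs2] at h1
  have h2 : m0 ≤ (μ3 {x | x ∈ V ∧ 2 / 3 * wl x < r - min (r - c) (m0 / 2)}).toReal := by
    refine ENNReal.toReal_mono (measure_ne_top _ _) (measure_mono ?_)
    rintro x ⟨hx1, hx2⟩
    have := min_le_left (r - c) (m0 / 2)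
    exact ⟨hx1, by linarith⟩
  have h3 := min_le_right (r - c) (m0 / 2)
  have hX' : (0 : ℝ) ≤ X := Nat.cast_nonneg X
  refine le_trans ?_ h1
  rw [mul_comm]
  exact mul_le_mul_of_nonneg_left (by linarith) hX'

end Pool.Agent.WR4.H33
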