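import Pool.Agent.Helper33_WR4.F1
import Pool.Agent.Helper33_WR3.FNL

/-!
WR4: final theorem, part 2: assembly.
-/

namespace Pool.Agent.WR4.H33

open Pool.Agent.WIR Pool.Agent.WR2 Pool.Agent.WR3 Pool.Agent.WR4
open scoped BigOperators ENNReal Topology
open Filter MeasureTheory

/-- the limit almost everywhere with the normalisation of the problem -/
theorem ae_lim (SBR : SbrStmt) (TYB : TybStmt) (AEC : AecStmt) (wl : ℤ_[3] → ℝ)
    (h0 : ∀ x, 0 ≤ wl x) (hl : ∀ᵐ x ∂μ3, Tendsto (fun m => Wp m x) atTop (𝓝 (wl x))) :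
    ∀ᵐ x ∂μ3, Tendsto (fun n => sP n x / sbar n) atTop (𝓝 (ENNReal.ofReal (2 / 3 * wl x))) := by
  obtain ⟨C, hC⟩ := TYB
  filter_upwards [AEC wl h0 hl] with x hx
  have hne : (2 / 3 : ℝ≥0∞) ≠ ⊤ := ENNReal.div_ne_top (by norm_num) (by norm_num)
  have h3 := ENNReal.Tendsto.mul hx (Or.inr hne) SBR.2 (Or.inr ENNReal.ofReal_ne_top)
  have e1 : ENNReal.ofReal (wl x) * (2 / 3) = ENNReal.ofReal (2 / 3 * wl x) := by
    have e2 : (2 / 3 : ℝ≥0∞) = ENNReal.ofReal (2 / 3) := by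
      rw [ENNReal.ofReal_div_of_pos (by norm_num)]
      norm_num
    rw [e2, ← ENNReal.ofReal_mul (h0 x)]
    congr 1
    ring
  rw [e1] at h3
  refine h3.congr' ?_
  filter_upwards [eventually_ge_atTop 1] with n hn
  have hp : 0 < ∑' l, en n l := by
    refine lt_of_lt_of_le ?_ (hC n hn).2.1
    positivity
  have hpe : ENNReal.ofReal (∑' l, en n l) ≠ 0 := by
    rw [Ne, ENNReal.ofReal_eq_zero, not_le]
    exact hp
  rw [ENNReal.div_eq_inv_mul, ENNReal.div_eq_inv_mul, ENNReal.div_eq_inv_mul]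
  calc (ENNReal.ofReal (∑' l, en n l))⁻¹ * sP n x
        * ((sbar n)⁻¹ * ENNReal.ofReal (∑' l, en n l))
      = ((ENNReal.ofReal (∑' l, en n l))⁻¹ * ENNReal.ofReal (∑' l, en n l))
        * ((sbar n)⁻¹ * sP n x) := by ring
    _ = _ := by rw [ENNReal.inv_mul_cancel hpe ENNReal.ofReal_ne_top, one_mul]

/-- a lower bound for the limit function on the units gives one for the Syracuse distribution -/
theorem sy_lower (UTS : UtsStmt) (MEA : MeaStmt) (SYF : SyfStmt) (SYC : SycStmt) (wl : ℤ_[3] → ℝ)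
    (hm : Measurable wl) (h0 : ∀ x, 0 ≤ wl x)
    (hl : ∀ᵐ x ∂μ3, Tendsto (fun m => Wp m x) atTop (𝓝 (wl x)))
    (c : ℝ) (hc : ∀ᵐ x ∂(μ3.restrict U3), c ≤ 2 / 3 * wl x) (n : ℕ) (hn : 1 ≤ n)
    (z : ZMod (3 ^ n)) (hz : IsUnit z) : 3 / 2 * c ≤ 3 ^ n * Sy n z := by
  classical
  set Cz : Set ℤ_[3] := {x : ℤ_[3] | PadicInt.toZModPow n x = z} with hCz
  have hind : ∀ x : ℤ_[3], (fun y : ZMod (3 ^ n) => if y = z then (1 : ℝ≥0∞) else 0)
      (PadicInt.toZModPow n x) = Cz.indicator 1 x := by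
    intro x
    by_cases h : PadicInt.toZModPow n x = z
    · rw [Set.indicator_of_mem (show x ∈ Cz from h)]
      simp [h]
    · rw [Set.indicator_of_notMem (show x ∉ Cz from h)]
      simp [h]
  have hM := MEA.2 n (fun y : ZMod (3 ^ n) => if y = z then (1 : ℝ≥0∞) else 0)
  have hmeas : MeasurableSet Cz := by
    have h1 := hM.1
    have h2 : Cz = (fun x : ℤ_[3] => (fun y : ZMod (3 ^ n) => if y = z then (1 : ℝ≥0∞) else 0)
        (PadicInt.toZModPow n x)) ⁻¹' {1} := by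
      ext x
      by_cases h : PadicInt.toZModPow n x = z
      · simp [hCz, h]
      · simp [hCz, h]
    rw [h2]
    exact h1 (measurableSet_singleton 1)
  have hμ : μ3 Cz = 1 / 3 ^ n := by
    have h1 := hM.2
    rw [lintegral_congr hind, lintegral_indicator_one hmeas] at h1
    rw [h1]
    simp
  have hsub : Cz ⊆ U3 := by
    intro x hx
    rw [(UTS.2.2.2 n x hn), show PadicInt.toZModPow n x = z from hx]
    exact hz
  have hc' : ∀ᵐ x ∂(μ3.restrict Cz), ENNReal.ofReal (3 / 2 * c) ≤ ENNReal.ofReal (wl x) := by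
    have h1 : ∀ᵐ x ∂(μ3.restrict Cz), c ≤ 2 / 3 * wl x :=
      ae_mono (Measure.restrict_mono hsub le_rfl) hc
    filter_upwards [h1] with x hx
    exact ENNReal.ofReal_le_ofReal (by linarith)
  have h1 : ENNReal.ofReal (3 / 2 * c) * μ3 Cz ≤ ENNReal.ofReal (Sy n z) := by
    refine le_trans ?_ (SYC wl hm h0 hl n z)
    calc ENNReal.ofReal (3 / 2 * c) * μ3 Cz
        = ∫⁻ _x in Cz, ENNReal.ofReal (3 / 2 * c) ∂μ3 := by
          rw [setLIntegral_const]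
      _ ≤ ∫⁻ x in Cz, ENNReal.ofReal (wl x) ∂μ3 := lintegral_mono_ae hc'
  have h3 : (0 : ℝ) < 3 ^ n := by positivity
  have h2 : μ3 Cz = ENNReal.ofReal (1 / 3 ^ n) := by
    rw [hμ, ENNReal.ofReal_div_of_pos h3]
    congr 1
    · simp
    · rw [ENNReal.ofReal_pow (by norm_num)]
      norm_num
  rw [h2, mul_comm, ← ENNReal.ofReal_mul (by positivity)] at h1
  have h4 := (ENNReal.ofReal_le_ofReal_iff (SYF.1 n z).1).1 h1
  rw [one_div, inv_mul_le_iff₀ h3] at h4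
  exact h4

theorem two_pow_lower (w : ℕ → ℝ) (h0 : ∀ a, 0 < a → 0 ≤ w a)
    (h1 : ∀ a, 0 < a → 2 * w a = w (2 * a) + (if 3 ∣ 2 * a - 1 then 3 * w ((2 * a - 1) / 3) else 0))
    (a : ℕ) (ha : 0 < a) (j : ℕ) : w (2 ^ j * a) ≤ 2 ^ j * w a := by
  induction j with
  | zero => simp
  | succ j ih =>
    have hp : 0 < 2 ^ j * a := by positivity
    have h2 := h1 (2 ^ j * a) hp
    have h3 : (0 : ℝ) ≤ if 3 ∣ 2 * (2 ^ j * a) - 1 then 3 * w ((2 * (2 ^ j * a) - 1) / 3) else 0 := by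
      split_ifs with hd
      · have := h0 ((2 * (2 ^ j * a) - 1) / 3) (by omega)
        linarith
      · exact le_rfl
    have e : 2 ^ (j + 1) * a = 2 * (2 ^ j * a) := by ring
    rw [e, pow_succ]
    linarith

/-- one residue class is enough -/
theorem local_global (GEN : GenStmt) (w : ℕ → ℝ) (h0 : ∀ a, 0 < a → 0 ≤ w a)
    (h1 : ∀ a, 0 < a → 2 * w a = w (2 * a) + (if 3 ∣ 2 * a - 1 then 3 * w ((2 * a - 1) / 3) else 0))
    (k : ℕ) (z : ZMod (3 ^ (k + 1))) (hz : IsUnit z) (c : ℝ)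
    (hc : ∀ a : ℕ, 0 < a → (a : ZMod (3 ^ (k + 1))) = z → c ≤ w a) (a : ℕ) (ha : 0 < a)
    (h3 : ¬ 3 ∣ a) : c / 2 ^ (2 * 3 ^ k) ≤ w a := by
  have hu : IsUnit (a : ZMod (3 ^ (k + 1))) := by
    rw [ZMod.isUnit_iff_coprime]
    exact Nat.Coprime.pow_right _ ((Nat.Prime.coprime_iff_not_dvd Nat.prime_three).2 h3).symm
  have h2u : IsUnit (2 : ZMod (3 ^ (k + 1))) := by
    have : IsUnit ((2 : ℕ) : ZMod (3 ^ (k + 1))) := by
      rw [ZMod.isUnit_iff_coprime]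
      exact Nat.Coprime.pow_right _ (by norm_num)
    simpa using this
  obtain ⟨u, hu'⟩ := hu
  obtain ⟨v, hv'⟩ := hz
  obtain ⟨j, -, hj2, hj⟩ := GEN k ((u * v⁻¹ : (ZMod (3 ^ (k + 1)))ˣ) : ZMod (3 ^ (k + 1)))
    (Units.isUnit _)
  have h22 : (2 : ZMod (3 ^ (k + 1))) ^ j * (2 : ZMod (3 ^ (k + 1)))⁻¹ ^ j = 1 := by
    rw [← mul_pow, ZMod.mul_inv_of_unit _ h2u, one_pow]
  have hcl : ((2 ^ j * a : ℕ) : ZMod (3 ^ (k + 1))) = z := by
    have e1 : (a : ZMod (3 ^ (k + 1))) = (2 : ZMod (3 ^ (k + 1)))⁻¹ ^ j * z := by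
      rw [← hj, ← hu', ← hv', ← Units.val_mul, mul_assoc, inv_mul_cancel, mul_one]
    push_cast
    rw [e1, ← mul_assoc, h22, one_mul]
  have h4 := hc (2 ^ j * a) (by positivity) hcl
  have h5 := two_pow_lower w h0 h1 a ha j
  have h6 : (2 : ℝ) ^ j ≤ 2 ^ (2 * 3 ^ k) := pow_le_pow_right₀ (by norm_num) hj2
  rw [div_le_iff₀ (by positivity)]
  calc c ≤ 2 ^ j * w a := h4.trans h5
    _ ≤ 2 ^ (2 * 3 ^ k) * w a := mul_le_mul_of_nonneg_right h6 (h0 a ha)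
    _ = w a * 2 ^ (2 * 3 ^ k) := mul_comm _ _

end Pool.Agent.WR4.H33
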