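import Pool.Agent.Helper33_WR4.F1
import Pool.Agent.Helper65_WR4.CNU
import Pool.Agent.Helper95_WR4.DIS

/-!
WR4: final theorem, part 3: residue classes (versions of the rows CNU and DIS for one class).
-/

namespace Pool.Agent.WR4.H33

open Pool.Agent.WIR Pool.Agent.WR2 Pool.Agent.WR3 Pool.Agent.WR4
open scoped BigOperators ENNReal Topology
open Filter MeasureTheory

/-- the integers prime to 3 in the class `z` -/
def Qz (k : ℕ) (z : ZMod (3 ^ k)) (a : ℕ) : Prop := ¬ 3 ∣ a ∧ ((a : ℕ) : ZMod (3 ^ k)) = z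

/-- the units in the class `z` -/
def Vz (k : ℕ) (z : ZMod (3 ^ k)) : Set ℤ_[3] := {x | x ∈ U3 ∧ PadicInt.toZModPow k x = z}

/-- the predicate on the classes mod `3^m` -/
def Cz (k : ℕ) (z : ZMod (3 ^ k)) (m : ℕ) (h : k ≤ m) (r : ℝ) (y : ZMod (3 ^ m)) : Prop :=
  IsUnit y ∧ ZMod.castHom (pow_dvd_pow 3 h) (ZMod (3 ^ k)) y = z ∧ W m y ≤ r

open Classical in
/-- proportions -/
noncomputable def Pz (k : ℕ) (z : ZMod (3 ^ k)) (m : ℕ) (r : ℝ) : ℝ :=
  if h : k ≤ m then ((Finset.univ.filter (fun y : ZMod (3 ^ m) => Cz k z m h r y)).card : ℝ) / 3 ^ m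
    else 0

theorem unit_iff (m : ℕ) (hm : 1 ≤ m) (a : ℕ) : IsUnit ((a : ℕ) : ZMod (3 ^ m)) ↔ ¬ 3 ∣ a := by
  rw [ZMod.isUnit_iff_coprime]
  constructor
  · intro hc hd
    have h3 : 3 ∣ 3 ^ m := dvd_pow_self 3 (by omega)
    have h4 : 3 ∣ Nat.gcd a (3 ^ m) := Nat.dvd_gcd hd h3
    rw [hc] at h4
    omega
  · intro hd
    apply Nat.Coprime.pow_right
    exact ((Nat.Prime.coprime_iff_not_dvd Nat.prime_three).mpr hd).symm

theorem cnt_z (ava : AvaStmt) (k : ℕ) (z : ZMod (3 ^ k)) : Cnt (Qz k z) (Pz k z) := by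
  classical
  refine ⟨k + 1, fun m hm r X => ?_⟩
  have hkm : k ≤ m := by omega
  set F : ZMod (3 ^ m) → ℝ := fun y => if Cz k z m hkm r y then (1 : ℝ) else 0 with hF
  obtain ⟨hL, hA⟩ := ava.2.1 m F
  have hpr : av m (fun a => F (a : ZMod (3 ^ m))) = Pz k z m r := by
    rw [hA]
    unfold Pz
    rw [dif_pos hkm]
    congr 1
    rw [hF, Finset.sum_boole]
  have hcard : NW (Qz k z) (wr m) r X = ∑ a ∈ Finset.Icc 1 X, (fun a : ℕ => F (a : ZMod (3 ^ m))) a := by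
    unfold NW
    rw [Finset.card_filter]
    push_cast
    refine Finset.sum_congr rfl fun a _ => ?_
    have hiff : (Qz k z a ∧ wr m a ≤ r) ↔ Cz k z m hkm r ((a : ℕ) : ZMod (3 ^ m)) := by
      unfold Qz Cz
      rw [unit_iff m (by omega) a, map_natCast]
      unfold wr
      tauto
    show (if (Qz k z a ∧ wr m a ≤ r) then (1 : ℝ) else 0)
      = if Cz k z m hkm r ((a : ℕ) : ZMod (3 ^ m)) then (1 : ℝ) else 0
    by_cases hc : (Qz k z a ∧ wr m a ≤ r)
    · rw [if_pos hc, if_pos (hiff.mp hc)]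
    · rw [if_neg hc, if_neg (fun h => hc (hiff.mpr h))]
  have hmain := H65.per_sum65 m (fun a : ℕ => F (a : ZMod (3 ^ m))) hL
    (fun a => by
      show (0 : ℝ) ≤ if Cz k z m hkm r ((a : ℕ) : ZMod (3 ^ m)) then (1 : ℝ) else 0
      split_ifs <;> norm_num)
    (fun a => by
      show (if Cz k z m hkm r ((a : ℕ) : ZMod (3 ^ m)) then (1 : ℝ) else 0) ≤ 1
      split_ifs <;> norm_num) X
  rw [hpr] at hmain
  rw [hcard]
  exact hmain

theorem cast_proj (k m : ℕ) (h : k ≤ m) (x : ℤ_[3]) :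
    ZMod.castHom (pow_dvd_pow 3 h) (ZMod (3 ^ k)) (PadicInt.toZModPow m x)
      = PadicInt.toZModPow k x := by
  have h1 := PadicInt.zmod_cast_comp_toZModPow (p := 3) k m h
  have h2 := congrArg (fun f => f x) h1
  simpa using h2

theorem vz_level (mea : MeaStmt) (uts : UtsStmt) (k : ℕ) (z : ZMod (3 ^ k)) (m : ℕ) (hm : k + 1 ≤ m)
    (s : ℝ) :
    MeasurableSet {x : ℤ_[3] | x ∈ Vz k z ∧ Wp m x ≤ s} ∧
      (μ3 {x : ℤ_[3] | x ∈ Vz k z ∧ Wp m x ≤ s}).toReal = Pz k z m s := by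
  classical
  have hkm : k ≤ m := by omega
  obtain ⟨-, hmea⟩ := mea
  obtain ⟨-, -, -, huts⟩ := uts
  set F : ZMod (3 ^ m) → ℝ≥0∞ := fun y => if Cz k z m hkm s y then (1 : ℝ≥0∞) else 0 with hF
  obtain ⟨h1, h2⟩ := hmea m F
  have hiff : ∀ x : ℤ_[3], (x ∈ Vz k z ∧ Wp m x ≤ s) ↔ Cz k z m hkm s (PadicInt.toZModPow m x) := by
    intro x
    unfold Cz Vz
    rw [cast_proj k m hkm]
    unfold Wp
    change ((x ∈ U3 ∧ _) ∧ _) ↔ _
    rw [huts m x (by omega)]
    tauto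
  have hFx : ∀ x : ℤ_[3], F (PadicInt.toZModPow m x)
      = Set.indicator {x : ℤ_[3] | x ∈ Vz k z ∧ Wp m x ≤ s} 1 x := by
    intro x
    by_cases h : x ∈ Vz k z ∧ Wp m x ≤ s
    · rw [Set.indicator_of_mem (show x ∈ {x : ℤ_[3] | x ∈ Vz k z ∧ Wp m x ≤ s} from h)]
      show (if Cz k z m hkm s (PadicInt.toZModPow m x) then (1 : ℝ≥0∞) else 0) = _
      rw [if_pos ((hiff x).1 h)]
      rfl
    · rw [Set.indicator_of_notMem (show x ∉ {x : ℤ_[3] | x ∈ Vz k z ∧ Wp m x ≤ s} from h)]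
      show (if Cz k z m hkm s (PadicInt.toZModPow m x) then (1 : ℝ≥0∞) else 0) = _
      rw [if_neg (fun h' => h ((hiff x).2 h'))]
  have hset : {x : ℤ_[3] | x ∈ Vz k z ∧ Wp m x ≤ s} =
      (fun x : ℤ_[3] => F (PadicInt.toZModPow m x)) ⁻¹' {1} := by
    ext x
    rw [Set.mem_preimage, Set.mem_singleton_iff]
    change (x ∈ Vz k z ∧ Wp m x ≤ s) ↔ (if Cz k z m hkm s (PadicInt.toZModPow m x)
      then (1 : ℝ≥0∞) else 0) = 1
    rw [hiff x]
    by_cases h : Cz k z m hkm s (PadicInt.toZModPow m x)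
    · simp [h]
    · simp [h]
  have hms : MeasurableSet {x : ℤ_[3] | x ∈ Vz k z ∧ Wp m x ≤ s} := by
    rw [hset]
    exact h1 (measurableSet_singleton 1)
  refine ⟨hms, ?_⟩
  rw [lintegral_congr hFx, lintegral_indicator_one hms] at h2
  rw [h2]
  unfold Pz
  rw [dif_pos hkm, ENNReal.toReal_div]
  have h3 : (∑ y : ZMod (3 ^ m), F y)
      = (((Finset.univ.filter (fun y : ZMod (3 ^ m) => Cz k z m hkm s y)).card : ℕ) : ℝ≥0∞) := by
    rw [hF, Finset.sum_boole]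
  rw [h3, ENNReal.toReal_natCast, ENNReal.toReal_pow]
  norm_num

theorem vz_meas (mea : MeaStmt) (uts : UtsStmt) (k : ℕ) (z : ZMod (3 ^ k)) :
    MeasurableSet (Vz k z) := by
  classical
  obtain ⟨h1, -⟩ := mea.2 k (fun y : ZMod (3 ^ k) => if y = z then (1 : ℝ≥0∞) else 0)
  have h2 : Vz k z = U3 ∩ (fun x : ℤ_[3] => (fun y : ZMod (3 ^ k) =>
      if y = z then (1 : ℝ≥0∞) else 0) (PadicInt.toZModPow k x)) ⁻¹' {1} := by
    ext x
    unfold Vz
    by_cases h : PadicInt.toZModPow k x = z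
    · simp [h]
    · simp [h]
  rw [h2]
  exact uts.1.inter (h1 (measurableSet_singleton 1))

theorem dst_z (mea : MeaStmt) (uts : UtsStmt) (k : ℕ) (z : ZMod (3 ^ k)) (w : ℤ_[3] → ℝ)
    (hw : Measurable w) (hlim : ∀ᵐ x ∂μ3, Tendsto (fun m => Wp m x) atTop (𝓝 (w x))) :
    Dst (Vz k z) (Pz k z) w := by
  classical
  intro s ε hε
  have hprob : IsProbabilityMeasure μ3 := mea.1
  have hU : MeasurableSet (Vz k z) := vz_meas mea uts k z
  have hle : MeasurableSet {x : ℤ_[3] | x ∈ Vz k z ∧ w x ≤ s} :=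
    hU.inter (measurableSet_le hw measurable_const)
  have hlt : MeasurableSet {x : ℤ_[3] | x ∈ Vz k z ∧ w x < s} :=
    hU.inter (measurableSet_lt hw measurable_const)
  obtain ⟨m1, hm1⟩ := H95.dis_zero
    (fun m => {x : ℤ_[3] | x ∈ Vz k z ∧ Wp (k + m) x ≤ s} \ {x : ℤ_[3] | x ∈ Vz k z ∧ w x ≤ s})
    (fun m => (vz_level mea uts k z (k + (m + 1)) (by omega) s).1.diff hle)
    (by
      filter_upwards [hlim] with x hx
      by_cases hxs : s < w x
      · have := (tendsto_add_atTop_nat k).eventually (hx.eventually (lt_mem_nhds hxs))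
        filter_upwards [this] with m hm h
        have h' := h.1.2
        rw [add_comm] at h'
        exact absurd h' (not_le.2 hm)
      · refine Eventually.of_forall fun m h => ?_
        exact h.2 ⟨h.1.1, not_lt.1 hxs⟩) ε hε
  obtain ⟨m2, hm2⟩ := H95.dis_zero
    (fun m => {x : ℤ_[3] | x ∈ Vz k z ∧ w x < s} \ {x : ℤ_[3] | x ∈ Vz k z ∧ Wp (k + m) x ≤ s})
    (fun m => hlt.diff (vz_level mea uts k z (k + (m + 1)) (by omega) s).1)
    (by
      filter_upwards [hlim] with x hx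
      by_cases hxs : w x < s
      · have := (tendsto_add_atTop_nat k).eventually (hx.eventually (gt_mem_nhds hxs))
        filter_upwards [this] with m hm h
        refine h.2 ⟨h.1.1, ?_⟩
        rw [add_comm]
        exact le_of_lt hm
      · refine Eventually.of_forall fun m h => ?_
        exact hxs h.1.2) ε hε
  refine ⟨k + (m1 + m2 + 1), fun m hm => ?_⟩
  obtain ⟨ha, hb⟩ := vz_level mea uts k z m (by omega) s
  have h1 := hm1 (m - k) (by omega)
  have h2 := hm2 (m - k) (by omega)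
  rw [show k + (m - k) = m by omega] at h1 h2
  rw [← hb]
  constructor
  · have h3 : μ3 {x : ℤ_[3] | x ∈ Vz k z ∧ Wp m x ≤ s} ≤ μ3 {x : ℤ_[3] | x ∈ Vz k z ∧ w x ≤ s} +
        μ3 ({x : ℤ_[3] | x ∈ Vz k z ∧ Wp m x ≤ s} \ {x : ℤ_[3] | x ∈ Vz k z ∧ w x ≤ s}) := by
      refine le_trans (measure_mono ?_) (measure_union_le _ _)
      intro x hx
      by_cases h : x ∈ {x : ℤ_[3] | x ∈ Vz k z ∧ w x ≤ s}
      · exact Or.inl h
      · exact Or.inr ⟨hx, h⟩
    have h4 := ENNReal.toReal_mono (by finiteness) h3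
    rw [ENNReal.toReal_add (measure_ne_top _ _) (measure_ne_top _ _)] at h4
    linarith
  · have h3 : μ3 {x : ℤ_[3] | x ∈ Vz k z ∧ w x < s} ≤ μ3 {x : ℤ_[3] | x ∈ Vz k z ∧ Wp m x ≤ s} +
        μ3 ({x : ℤ_[3] | x ∈ Vz k z ∧ w x < s} \ {x : ℤ_[3] | x ∈ Vz k z ∧ Wp m x ≤ s}) := by
      refine le_trans (measure_mono ?_) (measure_union_le _ _)
      intro x hx
      by_cases h : x ∈ {x : ℤ_[3] | x ∈ Vz k z ∧ Wp m x ≤ s}
      · exact Or.inl h
      · exact Or.inr ⟨hx, h⟩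
    have h4 := ENNReal.toReal_mono (by finiteness) h3
    rw [ENNReal.toReal_add (measure_ne_top _ _) (measure_ne_top _ _)] at h4
    linarith

end Pool.Agent.WR4.H33
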