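import Pool.Agent.Helper33_WR4.F2
import Pool.Agent.Helper33_WR4.F3
import Pool.Agent.WR4.StmtsB

/-!
WR4: final theorem, part 4.
-/

namespace Pool.Agent.WR4.H33

open Pool.Agent.WIR Pool.Agent.WR2 Pool.Agent.WR3 Pool.Agent.WR4
open scoped BigOperators ENNReal Topology
open Filter MeasureTheory

theorem qz0 (a : ℕ) : Qz 0 0 a ↔ ¬ 3 ∣ a := by
  unfold Qz
  have : Subsingleton (ZMod (3 ^ 0)) := by
    rw [pow_zero]
    infer_instance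
  constructor
  · intro h
    exact h.1
  · intro h
    exact ⟨h, Subsingleton.elim _ _⟩

theorem vz0 : Vz 0 0 = U3 := by
  unfold Vz
  have : Subsingleton (ZMod (3 ^ 0)) := by
    rw [pow_zero]
    infer_instance
  ext x
  constructor
  · intro h
    exact h.1
  · intro h
    exact ⟨h, Subsingleton.elim _ _⟩

/-- the Syracuse densities give a lower bound for almost all units -/
theorem ae_of_sy (SYA : SyaStmt) (UTS : UtsStmt) (wl : ℤ_[3] → ℝ)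
    (hl : ∀ᵐ x ∂μ3, Tendsto (fun m => Wp m x) atTop (𝓝 (wl x))) (c : ℝ)
    (hc : ∀ n : ℕ, 1 ≤ n → ∀ z : ZMod (3 ^ n), IsUnit z → 3 / 2 * c ≤ 3 ^ n * Sy n z) :
    ∀ᵐ x ∂(μ3.restrict U3), c ≤ 2 / 3 * wl x := by
  rw [ae_restrict_iff' UTS.1]
  filter_upwards [SYA wl hl] with x hx hxU
  have h1 : 3 / 2 * c ≤ wl x := by
    refine ge_of_tendsto hx ?_
    filter_upwards [eventually_ge_atTop 1] with m hm
    exact hc m hm _ ((UTS.2.2.2 m x hm).1 hxU)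
  linarith

theorem fin4 (SBR : SbrStmt) (TYB : TybStmt) (MCV : McvStmt) (SLB : SlbStmt) (RHO : RhoStmt)
    (RSN : RsnStmt) (RFU : RfuStmt) (EQD : EqdStmt) (AVA : AvaStmt) (UTS : UtsStmt) (MEA : MeaStmt)
    (WLM : WlmStmt) (AEC : AecStmt) (SYF : SyfStmt) (SYC : SycStmt) (SYA : SyaStmt) (GEN : GenStmt) :
    ∃ (w : ℕ → ℝ) (v : ℤ_[3] → ℝ), Measurable v ∧ (∀ x, 0 ≤ v x) ∧
      (∀ a, 0 < a → 0 ≤ w a ∧
        Tendsto (fun n : ℕ => sN n a / sbar n) atTop (𝓝 (ENNReal.ofReal (w a)))) ∧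
      (∀ᵐ x ∂(μ3.restrict U3),
        Tendsto (fun n => sP n x / sbar n) atTop (𝓝 (ENNReal.ofReal (v x)))) ∧
      (∀ᵐ x ∂(μ3.restrict U3),
        Tendsto (fun m : ℕ => 2 / 3 * (3 ^ m * Sy m (PadicInt.toZModPow m x))) atTop (𝓝 (v x))) ∧
      (∀ (k : ℕ) (z : ZMod (3 ^ k)) (r : ℝ), μ3 {x | x ∈ Vz k z ∧ v x = r} = 0 →
        Tendsto (fun X : ℕ => NW (Qz k z) w r X / X) atTop
          (𝓝 (μ3 {x | x ∈ Vz k z ∧ v x ≤ r}).toReal)) ∧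
      (∀ c : ℝ,
        ((∀ r, r < c → Tendsto (fun X : ℕ => NW (Qz 0 0) w r X / X) atTop (𝓝 0)) ↔
          (∀ᵐ x ∂(μ3.restrict U3), c ≤ v x)) ∧
        ((∀ᵐ x ∂(μ3.restrict U3), c ≤ v x) ↔
          ∀ n : ℕ, 1 ≤ n → ∀ z : ZMod (3 ^ n), IsUnit z → 3 / 2 * c ≤ 3 ^ n * Sy n z)) ∧
      (∀ c r : ℝ, c < r → (¬ ∀ᵐ x ∂(μ3.restrict U3), c ≤ v x) →
        ∃ δ : ℝ, 0 < δ ∧ ∃ X0 : ℕ, ∀ X : ℕ, X0 ≤ X → δ * X ≤ NW (Qz 0 0) w r X) ∧
      (∀ (k : ℕ) (z : ZMod (3 ^ (k + 1))), IsUnit z → ∀ c : ℝ,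
        (∀ a : ℕ, 0 < a → (a : ZMod (3 ^ (k + 1))) = z → c ≤ w a) →
        ∀ a : ℕ, 0 < a → ¬ 3 ∣ a → c / 2 ^ (2 * 3 ^ k) ≤ w a) := by
  obtain ⟨σ, -, hσ⟩ := id MCV
  have hσ0 := WR3.H33.sigma_pos SLB σ hσ
  choose ρ hρ0 hρ using RHO
  set ρ' : ℕ → ℝ := fun a => if h : 0 < a then ρ a h else 0 with hρ'
  have hra : ∀ a (h : 0 < a), ρ' a = ρ a h := fun a h => by rw [hρ']; exact dif_pos h
  set w : ℕ → ℝ := fun a => ρ' a / (3 * σ) with hw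
  have hRh : Rh ρ' := by
    intro a ha
    rw [hra a ha]
    exact hρ a ha
  have hlim : ∀ a, 0 < a → 0 ≤ w a ∧
      Tendsto (fun n : ℕ => sN n a / sbar n) atTop (𝓝 (ENNReal.ofReal (w a))) := by
    intro a ha
    have h0 : 0 ≤ ρ' a := by
      rw [hra a ha]
      exact hρ0 a ha
    refine ⟨by rw [hw]; positivity, ?_⟩
    exact WR3.H33.ratio_lim SBR TYB RSN a ha (ρ' a) σ hσ0 hσ h0 (hRh a ha)
  have hfun : ∀ a, 0 < a →
      2 * w a = w (2 * a) + (if 3 ∣ 2 * a - 1 then 3 * w ((2 * a - 1) / 3) else 0) := by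
    intro a ha
    have h2a : 0 < 2 * a := by omega
    by_cases hd : 3 ∣ 2 * a - 1
    · have h3 : 0 < (2 * a - 1) / 3 := by omega
      have h := WR3.H33.rho_eq RFU a ha (ρ' a) (ρ' (2 * a)) (ρ' ((2 * a - 1) / 3)) (hRh a ha)
        (hRh _ h2a) (fun _ => hRh _ h3)
      rw [if_pos hd] at h ⊢
      calc 2 * (ρ' a / (3 * σ)) = (2 * ρ' a) / (3 * σ) := by ring
        _ = _ := by rw [h, hw]; ring
    · have h := WR3.H33.rho_eq RFU a ha (ρ' a) (ρ' (2 * a)) 0 (hRh a ha) (hRh _ h2a)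
        (fun h' => absurd h' hd)
      rw [if_neg hd] at h ⊢
      calc 2 * (ρ' a / (3 * σ)) = (2 * ρ' a) / (3 * σ) := by ring
        _ = _ := by rw [h, hw]; ring
  have hCl : Cl w := cl_of_eqd EQD σ ⟨hσ0, hσ⟩ ρ' hRh w (fun a _ => rfl)
  obtain ⟨wl, hwm, hw0, hwl, -⟩ := WLM
  refine ⟨w, fun x => 2 / 3 * wl x, hwm.const_mul _, fun x => by have := hw0 x; positivity, hlim,
    ?_, ?_, ?_, ?_, ?_, ?_⟩
  · exact ae_restrict_of_ae (ae_lim SBR TYB AEC wl hw0 hwl)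
  · refine ae_restrict_of_ae ?_
    filter_upwards [SYA wl hwl] with x hx
    exact hx.const_mul (2 / 3)
  · intro k z r h0
    exact value_dist MEA (Qz k z) (Vz k z) (vz_meas MEA UTS k z) (Pz k z) w hCl wl hwm
      (cnt_z AVA k z) (dst_z MEA UTS k z wl hwm hwl) r h0
  · intro c
    have hU : MeasurableSet (Vz 0 0) := vz_meas MEA UTS 0 0
    refine ⟨⟨fun h => ?_, fun h r hr => ?_⟩, ⟨fun h n hn z hz => ?_, fun h => ?_⟩⟩
    · have h1 := ae_lower MEA (Qz 0 0) (Vz 0 0) hU (Pz 0 0) w hCl wl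
        (cnt_z AVA 0 0) (dst_z MEA UTS 0 0 wl hwm hwl) c h
      rwa [vz0] at h1
    · refine ae_upper MEA (Qz 0 0) (Vz 0 0) hU (Pz 0 0) w hCl wl hwm
        (cnt_z AVA 0 0) (dst_z MEA UTS 0 0 wl hwm hwl) c ?_ r hr
      rwa [vz0]
    · exact sy_lower UTS MEA SYF SYC wl hwm hw0 hwl c h n hn z hz
    · exact ae_of_sy SYA UTS wl hwl c h
  · intro c r hcr hc
    refine pos_prop MEA (Qz 0 0) (Vz 0 0) (vz_meas MEA UTS 0 0) (Pz 0 0) w hCl wl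
      (cnt_z AVA 0 0) (dst_z MEA UTS 0 0 wl hwm hwl) c r hcr ?_
    rwa [vz0]
  · intro k z hz c hc a ha h3
    exact local_global GEN w (fun a ha => (hlim a ha).1) hfun k z hz c hc a ha h3

end Pool.Agent.WR4.H33
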