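import Pool.Agent.Helper33_WR4.F4

/-!
WR4: final theorem, part 5: limits and inequalities.
-/

namespace Pool.Agent.WR4.H33

open Pool.Agent.WIR Pool.Agent.WR2 Pool.Agent.WR3 Pool.Agent.WR4
open scoped BigOperators ENNReal Topology
open Filter MeasureTheory

/-- the inequality of the problem for a sequence -/
def In (S : ℕ → ℝ≥0∞) (c : ℝ) : Prop := ∃ n0 : ℕ, ∀ n, n0 < n → ENNReal.ofReal c * sbar n < S n

theorem in_of_lim (SBR : SbrStmt) (S : ℕ → ℝ≥0∞) (w c : ℝ) (hw : 0 < w) (hcw : c < w)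
    (h : Tendsto (fun n : ℕ => S n / sbar n) atTop (𝓝 (ENNReal.ofReal w))) : In S c := by
  have h1 : ENNReal.ofReal c < ENNReal.ofReal w := (ENNReal.ofReal_lt_ofReal_iff hw).2 hcw
  have h2 := h.eventually (lt_mem_nhds h1)
  obtain ⟨n1, hn1⟩ := eventually_atTop.1 h2
  refine ⟨n1 + 1, fun n hn => ?_⟩
  have h3 := hn1 n (by omega)
  obtain ⟨hs0, hst⟩ := SBR.1 n (by omega)
  exact (ENNReal.lt_div_iff_mul_lt (Or.inl hs0.ne') (Or.inl hst.ne)).1 h3

theorem lim_of_in (SBR : SbrStmt) (S : ℕ → ℝ≥0∞) (w c : ℝ) (hw : 0 ≤ w)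
    (h : Tendsto (fun n : ℕ => S n / sbar n) atTop (𝓝 (ENNReal.ofReal w))) (hI : In S c) :
    c ≤ w := by
  obtain ⟨n0, hn0⟩ := hI
  have h1 : ENNReal.ofReal c ≤ ENNReal.ofReal w := by
    refine ge_of_tendsto h ?_
    filter_upwards [eventually_gt_atTop (n0 + 1)] with n hn
    obtain ⟨hs0, hst⟩ := SBR.1 n (by omega)
    have h2 := hn0 n (by omega)
    exact ((ENNReal.lt_div_iff_mul_lt (Or.inl hs0.ne') (Or.inl hst.ne)).2 h2).le
  exact (ENNReal.ofReal_le_ofReal_iff hw).1 h1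

/-- almost all units: the inequality with every smaller constant -/
theorem ae_iff_in (SBR : SbrStmt) (UTS : UtsStmt) (v : ℤ_[3] → ℝ) (h0 : ∀ x, 0 ≤ v x)
    (hlim : ∀ᵐ x ∂(μ3.restrict U3),
        Tendsto (fun n => sP n x / sbar n) atTop (𝓝 (ENNReal.ofReal (v x)))) (c : ℝ) (hc : 0 < c) :
    (∀ᵐ x ∂(μ3.restrict U3), c ≤ v x) ↔
      ∀ c' : ℝ, 0 < c' → c' < c → ∀ᵐ x ∂(μ3.restrict U3), In (fun n => sP n x) c' := by
  constructor
  · intro h c' h1 h2
    filter_upwards [h, hlim] with x hx hx2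
    exact in_of_lim SBR _ (v x) c' (by linarith) (by linarith) hx2
  · intro h
    have h1 : ∀ k : ℕ, ∀ᵐ x ∂(μ3.restrict U3), c - c / ((k : ℝ) + 2) ≤ v x := by
      intro k
      have hk : (0 : ℝ) < (k : ℝ) + 2 := by positivity
      have hlt : c / ((k : ℝ) + 2) < c := by
        rw [div_lt_iff₀ hk]
        have : (0 : ℝ) ≤ k := Nat.cast_nonneg k
        nlinarith
      have hpos : 0 < c / ((k : ℝ) + 2) := by positivity
      filter_upwards [h (c - c / ((k : ℝ) + 2)) (by linarith) (by linarith), hlim] with x hx hx2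
      exact lim_of_in SBR _ (v x) _ (h0 x) hx2 hx
    filter_upwards [ae_all_iff.2 h1] with x hx
    have h2 : Tendsto (fun k : ℕ => c - c / ((k : ℝ) + 2)) atTop (𝓝 (c - 0)) := by
      refine tendsto_const_nhds.sub ?_
      refine Tendsto.div_atTop tendsto_const_nhds ?_
      exact tendsto_atTop_add_const_right _ _ tendsto_natCast_atTop_atTop
    rw [sub_zero] at h2
    exact le_of_tendsto' h2 hx

open Classical in
/-- number of the `a ≤ X` prime to 3 without the inequality -/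
noncomputable def NB (I : ℕ → Prop) (X : ℕ) : ℝ :=
  (((Finset.Icc 1 X).filter (fun a => ¬ 3 ∣ a ∧ ¬ I a)).card : ℝ)

theorem nb_le (w : ℕ → ℝ) (I : ℕ → Prop) (r : ℝ) (h : ∀ a, 0 < a → r < w a → I a) (X : ℕ) :
    NB I X ≤ NW (Qz 0 0) w r X := by
  classical
  unfold NB NW
  refine Nat.cast_le.2 (Finset.card_le_card ?_)
  intro a ha
  rw [Finset.mem_filter] at ha ⊢
  refine ⟨ha.1, (qz0 a).2 ha.2.1, ?_⟩
  by_contra hcon
  exact ha.2.2 (h a (Finset.mem_Icc.1 ha.1).1 (not_le.1 hcon))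

theorem le_nb (w : ℕ → ℝ) (I : ℕ → Prop) (r : ℝ) (h : ∀ a, 0 < a → I a → r < w a) (X : ℕ) :
    NW (Qz 0 0) w r X ≤ NB I X := by
  classical
  unfold NB NW
  refine Nat.cast_le.2 (Finset.card_le_card ?_)
  intro a ha
  rw [Finset.mem_filter] at ha ⊢
  refine ⟨ha.1, (qz0 a).1 ha.2.1, ?_⟩
  intro hI
  have := h a (Finset.mem_Icc.1 ha.1).1 hI
  exact absurd ha.2.2 (not_le.2 this)

/-- density zero, in terms of the inequality -/
theorem dens_iff (SBR : SbrStmt) (w : ℕ → ℝ)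
    (hlim : ∀ a, 0 < a → 0 ≤ w a ∧
        Tendsto (fun n : ℕ => sN n a / sbar n) atTop (𝓝 (ENNReal.ofReal (w a))))
    (c : ℝ) (hc : 0 < c) :
    (∀ r, r < c → Tendsto (fun X : ℕ => NW (Qz 0 0) w r X / X) atTop (𝓝 0)) ↔
      ∀ c' : ℝ, 0 < c' → c' < c →
        Tendsto (fun X : ℕ => NB (fun a => In (fun n => sN n a) c') X / X) atTop (𝓝 0) := by
  constructor
  · intro h c' h1 h2
    refine squeeze_zero (fun X => div_nonneg (Nat.cast_nonneg _) (Nat.cast_nonneg _)) (fun X => ?_)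
      (h c' h2)
    refine div_le_div_of_nonneg_right ?_ (Nat.cast_nonneg _)
    refine nb_le w _ c' (fun a ha hw => ?_) X
    exact in_of_lim SBR _ (w a) c' (by linarith) hw (hlim a ha).2
  · intro h r hr
    set c' : ℝ := (max r 0 + c) / 2 with hc'
    have hm : max r 0 < c := max_lt hr hc
    have hm0 : 0 ≤ max r 0 := le_max_right _ _
    have hmr : r ≤ max r 0 := le_max_left _ _
    refine squeeze_zero (fun X => div_nonneg (Nat.cast_nonneg _) (Nat.cast_nonneg _)) (fun X => ?_)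
      (h c' (by linarith) (by linarith))
    refine div_le_div_of_nonneg_right ?_ (Nat.cast_nonneg _)
    refine le_nb w _ r (fun a ha hI => ?_) X
    have := lim_of_in SBR _ (w a) c' (hlim a ha).1 (hlim a ha).2 hI
    linarith

end Pool.Agent.WR4.H33
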