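import Pool.Agent.Helper33_WR4.F5

/-!
WR4: final theorem, part 6: one ball is enough for Q2.
-/

namespace Pool.Agent.WR4.H33

open Pool.Agent.WIR Pool.Agent.WR2 Pool.Agent.WR3 Pool.Agent.WR4
open scoped BigOperators ENNReal Topology
open Filter MeasureTheory

theorem ut_double (PRE : PreStmt) (M l a : ℕ) : uT M l (2 * a) ≤ uT (M + 1) l a := by
  obtain ⟨h1, -, h3, -⟩ := PRE
  rw [h3, h3]
  refine Finset.card_le_card ?_
  intro b hb
  rw [h1] at hb ⊢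
  obtain ⟨hb0, hbT, hbo⟩ := hb
  refine ⟨hb0, ?_, ?_⟩
  · rw [Function.iterate_succ_apply', hbT]
    unfold T
    rw [if_neg (by omega)]
    omega
  · unfold od at hbo ⊢
    rw [Finset.range_add_one, Finset.filter_insert, if_neg, hbo]
    rw [hbT]
    omega

theorem cnt_double (COD : CodStmt) (PRE : PreStmt) (M l : ℕ) (z : ZMod (3 ^ l)) :
    cnt M {l} l (2 * z) ≤ cnt (M + 1) {l} l z := by
  have hpos : 0 < z.val + 3 ^ l := by positivity
  have hz : ((z.val + 3 ^ l : ℕ) : ZMod (3 ^ l)) = z := by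
    rw [Nat.cast_add, ZMod.natCast_zmod_val, ZMod.natCast_self, add_zero]
  have h1 := COD M l (2 * (z.val + 3 ^ l)) (by omega)
  have h2 := COD (M + 1) l (z.val + 3 ^ l) hpos
  rw [hz] at h2
  have h3 : ((2 * (z.val + 3 ^ l) : ℕ) : ZMod (3 ^ l)) = 2 * z := by
    rw [Nat.cast_mul, hz]
    norm_num
  rw [h3] at h1
  rw [← h1, ← h2]
  exact ut_double PRE M l _

theorem sp_double (APR : AprStmt) (COD : CodStmt) (PRE : PreStmt) (n : ℕ) (x : ℤ_[3]) :
    sP n (2 * x) ≤ sP (n + 1) x := by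
  unfold sP
  refine ENNReal.tsum_le_tsum fun l => ?_
  rw [APR, APR]
  have h := cnt_double COD PRE (n + ⌊(l : ℝ) * Real.logb 2 (3 / 2)⌋₊ + l) l
    (PadicInt.toZModPow l x)
  rw [map_mul, map_ofNat]
  have e : n + 1 + ⌊(l : ℝ) * Real.logb 2 (3 / 2)⌋₊ + l
      = n + ⌊(l : ℝ) * Real.logb 2 (3 / 2)⌋₊ + l + 1 := by ring
  rw [e]
  exact_mod_cast h

theorem sbar_ratio (SBR : SbrStmt) (TYB : TybStmt) (σ : ℝ) (hσ0 : 0 < σ)
    (hσ : Tendsto (fun n : ℕ => (∑' l, en n l) / 2 ^ n) atTop (𝓝 σ)) :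
    ∃ n1 : ℕ, 1 ≤ n1 ∧ ∀ n, n1 ≤ n → sbar (n + 1) ≤ 3 * sbar n := by
  obtain ⟨C, hC⟩ := TYB
  have hne : (2 / 3 : ℝ≥0∞) ≠ ⊤ := ENNReal.div_ne_top (by norm_num) (by norm_num)
  have h1 : Tendsto (fun n => (∑' l, en n l) / (sbar n).toReal) atTop (𝓝 (2 / 3)) := by
    have h2 := (ENNReal.tendsto_toReal hne).comp SBR.2
    have e : (2 / 3 : ℝ≥0∞).toReal = 2 / 3 := by
      rw [ENNReal.toReal_div]
      norm_num
    rw [e] at h2
    refine h2.congr fun n => ?_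
    simp only [Function.comp]
    rw [ENNReal.toReal_div, ENNReal.toReal_ofReal]
    exact tsum_nonneg fun l => by unfold en; positivity
  have h2 : Tendsto (fun n : ℕ => (sbar n).toReal / 2 ^ n) atTop (𝓝 (σ / (2 / 3))) := by
    refine (hσ.div h1 (by norm_num)).congr' ?_
    filter_upwards [eventually_ge_atTop 1] with n hn
    have hp : 0 < ∑' l, en n l := by
      refine lt_of_lt_of_le ?_ (hC n hn).2.1
      positivity
    have hb : 0 < (sbar n).toReal := ENNReal.toReal_pos (SBR.1 n hn).1.ne' (SBR.1 n hn).2.ne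
    have h2n : (0 : ℝ) < 2 ^ n := by positivity
    simp only [Pi.div_apply]
    field_simp
  have hτ : 0 < σ / (2 / 3) := by positivity
  have h3 : Tendsto (fun n : ℕ => (sbar (n + 1)).toReal / 2 ^ (n + 1)) atTop (𝓝 (σ / (2 / 3))) :=
    h2.comp (tendsto_add_atTop_nat 1)
  have h4 := h2.eventually (lt_mem_nhds (show σ / (2 / 3) * (9 / 10) < σ / (2 / 3) by nlinarith))
  have h5 := h3.eventually (gt_mem_nhds (show σ / (2 / 3) < σ / (2 / 3) * (11 / 10) by nlinarith))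
  obtain ⟨n1, hn1⟩ := eventually_atTop.1 (h4.and h5)
  refine ⟨max n1 1, le_max_right _ _, fun n hn => ?_⟩
  obtain ⟨h6, h7⟩ := hn1 n ((le_max_left _ _).trans hn)
  have hn' : 1 ≤ n := (le_max_right _ _).trans hn
  have h2n : (0 : ℝ) < 2 ^ n := by positivity
  rw [lt_div_iff₀ h2n] at h6
  rw [div_lt_iff₀ (by positivity)] at h7
  have h8 : (sbar (n + 1)).toReal ≤ 3 * (sbar n).toReal := by
    rw [pow_succ] at h7
    nlinarith
  have hf1 := (SBR.1 (n + 1) (by omega)).2.ne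
  have hf0 := (SBR.1 n hn').2.ne
  rw [← ENNReal.ofReal_toReal hf1, ← ENNReal.ofReal_toReal hf0]
  have e3 : (3 : ℝ≥0∞) = ENNReal.ofReal 3 := by norm_num
  rw [e3, ← ENNReal.ofReal_mul (by norm_num)]
  exact ENNReal.ofReal_le_ofReal h8

theorem in_double (APR : AprStmt) (COD : CodStmt) (PRE : PreStmt)
    (hr : ∃ n1 : ℕ, 1 ≤ n1 ∧ ∀ n, n1 ≤ n → sbar (n + 1) ≤ 3 * sbar n) (c : ℝ) (x : ℤ_[3])
    (h : In (fun n => sP n (2 * x)) c) : In (fun n => sP n x) (c / 3) := by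
  obtain ⟨n1, -, hn1⟩ := hr
  obtain ⟨n0, hn0⟩ := h
  refine ⟨max n0 n1 + 1, fun n hn => ?_⟩
  obtain ⟨m, rfl⟩ : ∃ m, n = m + 1 := ⟨n - 1, by omega⟩
  have hm0 : n0 < m := by
    have := le_max_left n0 n1
    omega
  have hm1 : n1 ≤ m := by
    have := le_max_right n0 n1
    omega
  have h1 := hn0 m hm0
  have h2 := hn1 m hm1
  have h3 := sp_double APR COD PRE m x
  have e : ENNReal.ofReal (c / 3) * 3 = ENNReal.ofReal c := by
    rw [ENNReal.ofReal_div_of_pos (by norm_num)]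
    have : ENNReal.ofReal (3 : ℝ) = 3 := by norm_num
    rw [this]
    exact ENNReal.div_mul_cancel (by norm_num) (by norm_num)
  calc ENNReal.ofReal (c / 3) * sbar (m + 1) ≤ ENNReal.ofReal (c / 3) * (3 * sbar m) := by gcongr
    _ = ENNReal.ofReal c * sbar m := by rw [← mul_assoc, e]
    _ < sP m (2 * x) := h1
    _ ≤ sP (m + 1) x := h3

theorem in_pow (APR : AprStmt) (COD : CodStmt) (PRE : PreStmt)
    (hr : ∃ n1 : ℕ, 1 ≤ n1 ∧ ∀ n, n1 ≤ n → sbar (n + 1) ≤ 3 * sbar n) (j : ℕ) :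
    ∀ (c : ℝ) (x : ℤ_[3]), In (fun n => sP n (2 ^ j * x)) c → In (fun n => sP n x) (c / 3 ^ j) := by
  induction j with
  | zero =>
    intro c x h
    simpa using h
  | succ j ih =>
    intro c x h
    have e : (2 : ℤ_[3]) ^ (j + 1) * x = 2 ^ j * (2 * x) := by ring
    rw [e] at h
    have h1 := in_double APR COD PRE hr _ x (ih c (2 * x) h)
    rw [div_div, ← pow_succ] at h1
    exact h1

theorem in_mono (S : ℕ → ℝ≥0∞) (c c' : ℝ) (hcc : c' ≤ c) (h : In S c) : In S c' := by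
  obtain ⟨n0, hn0⟩ := h
  exact ⟨n0, fun n hn => lt_of_le_of_lt
    (mul_le_mul_left (ENNReal.ofReal_le_ofReal hcc) _) (hn0 n hn)⟩

/-- one ball is enough for the units -/
theorem local_units (APR : AprStmt) (COD : CodStmt) (PRE : PreStmt) (GEN : GenStmt) (UTS : UtsStmt)
    (hr : ∃ n1 : ℕ, 1 ≤ n1 ∧ ∀ n, n1 ≤ n → sbar (n + 1) ≤ 3 * sbar n)
    (k : ℕ) (z : ZMod (3 ^ (k + 1))) (hz : IsUnit z) (c : ℝ) (hc0 : 0 < c)
    (hc : ∀ x : ℤ_[3], x ∈ U3 → PadicInt.toZModPow (k + 1) x = z → In (fun n => sP n x) c)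
    (x : ℤ_[3]) (hx : x ∈ U3) : In (fun n => sP n x) (c / 3 ^ (2 * 3 ^ k)) := by
  have hu : IsUnit (PadicInt.toZModPow (k + 1) x) := (UTS.2.2.2 (k + 1) x (by omega)).1 hx
  have h2u : IsUnit (2 : ZMod (3 ^ (k + 1))) := by
    have : IsUnit ((2 : ℕ) : ZMod (3 ^ (k + 1))) := by
      rw [ZMod.isUnit_iff_coprime]
      exact Nat.Coprime.pow_right _ (by norm_num)
    simpa using this
  obtain ⟨u, hu'⟩ := hu
  obtain ⟨v, hv'⟩ := hz
  obtain ⟨j, -, hj2, hj⟩ := GEN k ((u * v⁻¹ : (ZMod (3 ^ (k + 1)))ˣ) : ZMod (3 ^ (k + 1)))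
    (Units.isUnit _)
  have h22 : (2 : ZMod (3 ^ (k + 1))) ^ j * (2 : ZMod (3 ^ (k + 1)))⁻¹ ^ j = 1 := by
    rw [← mul_pow, ZMod.mul_inv_of_unit _ h2u, one_pow]
  have hcl : PadicInt.toZModPow (k + 1) (2 ^ j * x) = z := by
    have e1 : PadicInt.toZModPow (k + 1) x = (2 : ZMod (3 ^ (k + 1)))⁻¹ ^ j * z := by
      rw [← hj, ← hu', ← hv', ← Units.val_mul, mul_assoc, inv_mul_cancel, mul_one]
    rw [map_mul, map_pow, map_ofNat, e1, ← mul_assoc, h22, one_mul]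
  have hU : (2 : ℤ_[3]) ^ j * x ∈ U3 := by
    rw [UTS.2.2.2 (k + 1) _ (by omega), hcl, ← hv']
    exact Units.isUnit _
  have h1 := in_pow APR COD PRE hr j c x (hc _ hU hcl)
  refine in_mono _ _ _ ?_ h1
  exact div_le_div_of_nonneg_left hc0.le (by positivity) (pow_le_pow_right₀ (by norm_num) hj2)

end Pool.Agent.WR4.H33
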