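import Pool.Agent.WR4.Stmts

/-!
WR4, row TCO, parts (b), (c) and assembly: few integers have a small predecessor and are not large
after `K` steps.
-/

namespace Pool.Agent.WR4.H33

open Pool.Agent.WIR Pool.Agent.WR2 Pool.Agent.WR3 Pool.Agent.WR4
open scoped BigOperators
open Filter Topology

theorem T_pos' (b : ℕ) (hb : 0 < b) : 0 < T b := by
  unfold T
  split_ifs <;> omega

theorem iter_pos' (i b : ℕ) (hb : 0 < b) : 0 < T^[i] b := by
  induction i with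
  | zero => exact hb
  | succ i ih =>
    rw [Function.iterate_succ_apply']
    exact T_pos' _ ih

open Classical in
/-- the first return to the set `G` -/
noncomputable def fr (G : ℕ → Prop) (b : ℕ) : ℕ :=
  if h : ∃ i, 1 ≤ i ∧ G (T^[i] b) then Nat.find h else 0

open Classical in
theorem fr_spec (G : ℕ → Prop) (b : ℕ) (h : ∃ i, 1 ≤ i ∧ G (T^[i] b)) :
    1 ≤ fr G b ∧ G (T^[fr G b] b) ∧ ∀ i, 1 ≤ i → G (T^[i] b) → fr G b ≤ i := by
  have hfr : fr G b = Nat.find h := by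
    unfold fr
    exact dif_pos h
  rw [hfr]
  exact ⟨(Nat.find_spec h).1, (Nat.find_spec h).2, fun i h1 h2 => Nat.find_min' h ⟨h1, h2⟩⟩

open Classical in
theorem tcc (X : ℕ) :
    ((Finset.Icc 1 X).filter (fun a => (T^[Nat.log 2 X] a) ^ 20 ≤ X ^ 19 ∧
      ∃ b j, 0 < b ∧ b ^ 20 ≤ X ^ 19 ∧ T^[j] b = a)).card
      ≤ (Nat.log 2 X + 1) * ((Finset.Icc 1 X).filter (fun b => b ^ 20 ≤ X ^ 19)).card := by
  set K := Nat.log 2 X with hK
  set Z := (Finset.Icc 1 X).filter (fun b => b ^ 20 ≤ X ^ 19) with hZ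
  set G : ℕ → Prop := fun g => 0 < g ∧ (T^[K] g) ^ 20 ≤ X ^ 19 with hG
  have hsmall : ∀ b : ℕ, 0 < b → b ^ 20 ≤ X ^ 19 → b ∈ Z := by
    intro b hb hb2
    rw [hZ, Finset.mem_filter, Finset.mem_Icc]
    refine ⟨⟨hb, ?_⟩, hb2⟩
    by_contra hcon
    have h1 : X < b := not_le.1 hcon
    have h2 : X ^ 19 < b ^ 19 := Nat.pow_lt_pow_left h1 (by norm_num)
    have h3 : b ^ 19 ≤ b ^ 20 := Nat.pow_le_pow_right hb (by norm_num)
    omega
  have hsub : (Finset.Icc 1 X).filter (fun a => (T^[K] a) ^ 20 ≤ X ^ 19 ∧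
      ∃ b j, 0 < b ∧ b ^ 20 ≤ X ^ 19 ∧ T^[j] b = a)
      ⊆ Z ∪ (Z ×ˢ Finset.range K).image (fun p => T^[p.2] (T^[fr G p.1] p.1)) := by
    intro a ha
    rw [Finset.mem_filter, Finset.mem_Icc] at ha
    obtain ⟨⟨ha1, ha2⟩, haK, haE⟩ := ha
    have hex : ∃ j, ∃ b, 0 < b ∧ b ^ 20 ≤ X ^ 19 ∧ T^[j] b = a := by
      obtain ⟨b, j, h⟩ := haE
      exact ⟨j, b, h⟩
    set j := Nat.find hex with hj
    obtain ⟨b, hb0, hb1, hb2⟩ := Nat.find_spec hex
    rw [← hj] at hb2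
    rw [Finset.mem_union]
    rcases Nat.eq_zero_or_pos j with hj0 | hj0
    · left
      rw [hj0] at hb2
      rw [← hb2]
      exact hsmall b hb0 hb1
    · right
      have hnot : ∀ i, 1 ≤ i → i ≤ j → ¬ (T^[i] b) ^ 20 ≤ X ^ 19 := by
        intro i hi1 hi2 hcon
        have hlt : j - i < j := by omega
        refine Nat.find_min hex (by rw [← hj]; exact hlt) ⟨T^[i] b, iter_pos' i b hb0, hcon, ?_⟩
        rw [← Function.iterate_add_apply, show j - i + i = j by omega]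
        exact hb2
      have hexG : ∃ i, 1 ≤ i ∧ G (T^[i] b) := ⟨j, hj0, by
        rw [hb2]
        exact ⟨ha1, haK⟩⟩
      obtain ⟨hi1, hi2, hi2'⟩ := fr_spec G b hexG
      have hi3 : fr G b ≤ j := by
        refine hi2' j hj0 ?_
        rw [hb2]
        exact ⟨ha1, haK⟩
      have hi4 : j - fr G b < K := by
        by_contra hcon
        have h1 : fr G b + K ≤ j := by omega
        refine hnot (fr G b + K) (by omega) h1 ?_
        rw [show fr G b + K = K + fr G b from add_comm _ _, Function.iterate_add_apply]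
        exact hi2.2
      rw [Finset.mem_image]
      refine ⟨(b, j - fr G b), ?_, ?_⟩
      · rw [Finset.mem_product]
        exact ⟨hsmall b hb0 hb1, Finset.mem_range.2 hi4⟩
      · show T^[j - fr G b] (T^[fr G b] b) = a
        rw [← Function.iterate_add_apply, show j - fr G b + fr G b = j by omega]
        exact hb2
  refine (Finset.card_le_card hsub).trans ((Finset.card_union_le _ _).trans ?_)
  have h1 := Finset.card_image_le (s := Z ×ˢ Finset.range K)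
    (f := fun p => T^[p.2] (T^[fr G p.1] p.1))
  rw [Finset.card_product, Finset.card_range] at h1
  calc Z.card + _ ≤ Z.card + Z.card * K := Nat.add_le_add_left h1 _
    _ = (K + 1) * Z.card := by ring

/-- few small numbers -/
theorem z_card (X : ℕ) :
    ((Finset.Icc 1 X).filter (fun b => b ^ 20 ≤ X ^ 19)).card ^ 20 ≤ X ^ 19 := by
  set Z := (Finset.Icc 1 X).filter (fun b => b ^ 20 ≤ X ^ 19) with hZ
  rcases Z.eq_empty_or_nonempty with h | h
  · rw [h]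
    simp
  · have h1 := Finset.max'_mem Z h
    set M := Z.max' h with hM
    have h2 : Z ⊆ Finset.Icc 1 M := by
      intro b hb
      rw [Finset.mem_Icc]
      refine ⟨?_, Finset.le_max' Z b hb⟩
      rw [hZ, Finset.mem_filter, Finset.mem_Icc] at hb
      exact hb.1.1
    have h3 : Z.card ≤ M := by
      have := Finset.card_le_card h2
      rwa [Nat.card_Icc, Nat.add_sub_cancel] at this
    rw [hZ, Finset.mem_filter] at h1
    exact (Nat.pow_le_pow_left h3 20).trans h1.2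

theorem log_small (ε : ℝ) (hε : 0 < ε) :
    ∃ X0 : ℕ, ∀ X : ℕ, X0 ≤ X → ∀ z : ℕ, z ^ 20 ≤ X ^ 19 →
      ((Nat.log 2 X : ℝ) + 1) * z ≤ ε * X := by
  have h1 : Tendsto (fun x : ℝ => Real.log x / x ^ (1 / 20 : ℝ)) atTop (𝓝 0) :=
    (isLittleO_log_rpow_atTop (by norm_num : (0 : ℝ) < 1 / 20)).tendsto_div_nhds_zero
  have h2 : Tendsto (fun x : ℝ => (1 : ℝ) / x ^ (1 / 20 : ℝ)) atTop (𝓝 0) :=
    tendsto_const_nhds.div_atTop (tendsto_rpow_atTop (by norm_num))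
  have h3 : Tendsto (fun x : ℝ => 2 * (Real.log x / x ^ (1 / 20 : ℝ)) + 1 / x ^ (1 / 20 : ℝ)) atTop
      (𝓝 (2 * 0 + 0)) := (h1.const_mul 2).add h2
  rw [mul_zero, add_zero] at h3
  have h4 := (h3.comp tendsto_natCast_atTop_atTop).eventually (gt_mem_nhds hε)
  obtain ⟨X1, hX1⟩ := eventually_atTop.1 h4
  refine ⟨max X1 1, fun X hX z hz => ?_⟩
  have h5 := hX1 X ((le_max_left _ _).trans hX)
  have hXp : 0 < X := lt_of_lt_of_le one_pos ((le_max_right _ _).trans hX)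
  have hXr : (0 : ℝ) < X := by exact_mod_cast hXp
  have hX1' : (1 : ℝ) ≤ X := by exact_mod_cast hXp
  simp only [Function.comp] at h5
  have hp : (0 : ℝ) < (X : ℝ) ^ (1 / 20 : ℝ) := Real.rpow_pos_of_pos hXr _
  have hlog : (Nat.log 2 X : ℝ) ≤ 2 * Real.log X := by
    have h6 : (Nat.log 2 X : ℝ) ≤ Real.logb 2 X := Real.natLog_le_logb X 2
    have h7 : Real.logb 2 X = Real.log X / Real.log 2 := rfl
    rw [h7] at h6
    refine h6.trans ?_
    have h8 : (1 / 2 : ℝ) ≤ Real.log 2 := by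
      have := Real.log_two_gt_d9
      linarith
    have h9 : 0 ≤ Real.log (X : ℝ) := Real.log_nonneg hX1'
    rw [div_le_iff₀ (by linarith)]
    nlinarith
  have hz' : (z : ℝ) * (X : ℝ) ^ (1 / 20 : ℝ) ≤ X := by
    have h10 : ((z : ℝ) * (X : ℝ) ^ (1 / 20 : ℝ)) ^ 20 ≤ (X : ℝ) ^ 20 := by
      rw [mul_pow, ← Real.rpow_natCast ((X : ℝ) ^ (1 / 20 : ℝ)) 20, ← Real.rpow_mul hXr.le]
      norm_num
      calc (z : ℝ) ^ 20 * X ≤ (X : ℝ) ^ 19 * X := by
            refine mul_le_mul_of_nonneg_right ?_ hXr.le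
            exact_mod_cast hz
        _ = (X : ℝ) ^ 20 := by ring
    exact le_of_pow_le_pow_left₀ (by norm_num) hXr.le h10
  have h11 : (2 * Real.log X + 1) / (X : ℝ) ^ (1 / 20 : ℝ) < ε := by
    have e : (2 * Real.log X + 1) / (X : ℝ) ^ (1 / 20 : ℝ)
        = 2 * (Real.log X / (X : ℝ) ^ (1 / 20 : ℝ)) + 1 / (X : ℝ) ^ (1 / 20 : ℝ) := by ring
    rw [e]
    exact h5
  rw [div_lt_iff₀ hp] at h11
  have hz0 : (0 : ℝ) ≤ z := Nat.cast_nonneg z
  calc ((Nat.log 2 X : ℝ) + 1) * z ≤ (2 * Real.log X + 1) * z :=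
        mul_le_mul_of_nonneg_right (by linarith) hz0
    _ ≤ (ε * (X : ℝ) ^ (1 / 20 : ℝ)) * z := mul_le_mul_of_nonneg_right h11.le hz0
    _ = ε * (z * (X : ℝ) ^ (1 / 20 : ℝ)) := by ring
    _ ≤ ε * X := mul_le_mul_of_nonneg_left hz' hε.le

open Classical in
/-- assembly of TCO -/
theorem tco_of (hA : ∀ ε : ℝ, 0 < ε → ∃ X0 : ℕ, ∀ X : ℕ, X0 ≤ X →
      (((Finset.Icc 1 X).filter (fun a => X ^ 19 < (T^[Nat.log 2 X] a) ^ 20)).card : ℝ) ≤ ε * X) :
    TcoStmt := by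
  intro ε hε
  obtain ⟨X1, h1⟩ := hA (ε / 2) (by positivity)
  obtain ⟨X2, h2⟩ := log_small (ε / 2) (by positivity)
  refine ⟨max X1 X2, fun X hX => ?_⟩
  have h3 := h1 X ((le_max_left _ _).trans hX)
  have h4 := h2 X ((le_max_right _ _).trans hX) _ (z_card X)
  have h5 : (((Finset.Icc 1 X).filter (fun a => (T^[Nat.log 2 X] a) ^ 20 ≤ X ^ 19 ∧
      ∃ b j, 0 < b ∧ b ^ 20 ≤ X ^ 19 ∧ T^[j] b = a)).card : ℝ) ≤ ε / 2 * X := by
    refine le_trans ?_ h4
    exact_mod_cast tcc X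
  have hsub : (Finset.Icc 1 X).filter (fun a => a ∉ TX X)
      ⊆ (Finset.Icc 1 X).filter (fun a => X ^ 19 < (T^[Nat.log 2 X] a) ^ 20) ∪
        (Finset.Icc 1 X).filter (fun a => (T^[Nat.log 2 X] a) ^ 20 ≤ X ^ 19 ∧
          ∃ b j, 0 < b ∧ b ^ 20 ≤ X ^ 19 ∧ T^[j] b = a) := by
    intro a ha
    rw [Finset.mem_filter] at ha
    rw [Finset.mem_union, Finset.mem_filter, Finset.mem_filter]
    by_cases hc : X ^ 19 < (T^[Nat.log 2 X] a) ^ 20
    · exact Or.inl ⟨ha.1, hc⟩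
    · right
      refine ⟨ha.1, not_lt.1 hc, ?_⟩
      by_contra hcon
      apply ha.2
      refine ⟨not_lt.1 hc, fun b j hb0 hb1 hb2 => ?_⟩
      exact hcon ⟨b, j, hb0, hb1, hb2⟩
  have h6 : (((Finset.Icc 1 X).filter (fun a => a ∉ TX X)).card : ℝ)
      ≤ (((Finset.Icc 1 X).filter (fun a => X ^ 19 < (T^[Nat.log 2 X] a) ^ 20)).card : ℝ) +
        (((Finset.Icc 1 X).filter (fun a => (T^[Nat.log 2 X] a) ^ 20 ≤ X ^ 19 ∧
          ∃ b j, 0 < b ∧ b ^ 20 ≤ X ^ 19 ∧ T^[j] b = a)).card : ℝ) := by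
    exact_mod_cast (Finset.card_le_card hsub).trans (Finset.card_union_le _ _)
  linarith

end Pool.Agent.WR4.H33
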